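import Pool.Agent.E8helper42.AZ.Stm

/-!
# Project AZ: the end of the proof
-/

set_option autoImplicit false

namespace Pool.Agent.E8helper71.AZ

open Pool.Agent.E8helper42.AZ

lemma summ (c : ℕ → ℚ) (hc : EFc c) (j : ℕ) (t : ℚ) :
    Summable fun n : ℕ => (n : ℝ) ^ j * (c n : ℝ) * (t : ℝ) ^ n / (n.factorial : ℝ) := by
  obtain ⟨C, hC, h1, -⟩ := hc
  have hs : Summable fun n : ℕ => C * ((2 ^ j * C * |(t : ℝ)|) ^ n / (n.factorial : ℝ)) :=
    (Real.summable_pow_div_factorial _).mul_left C
  refine Summable.of_norm_bounded hs fun n => ?_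
  rw [Real.norm_eq_abs, abs_div, abs_mul, abs_mul, abs_pow, abs_pow, Nat.abs_cast, Nat.abs_cast,
    ← mul_div_assoc]
  apply div_le_div_of_nonneg_right _ (by positivity)
  have h2 : (n : ℝ) ^ j ≤ (2 ^ j) ^ n := by
    have : (n : ℝ) ≤ 2 ^ n := by exact_mod_cast (Nat.lt_two_pow_self).le
    calc (n : ℝ) ^ j ≤ (2 ^ n) ^ j := pow_le_pow_left₀ (by positivity) this j
      _ = (2 ^ j) ^ n := by rw [← pow_mul, ← pow_mul, mul_comm]
  have h3 := h1 n
  calc (n : ℝ) ^ j * |(c n : ℝ)| * |(t : ℝ)| ^ n ≤ (2 ^ j) ^ n * C ^ (n + 1) * |(t : ℝ)| ^ n := by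
        gcongr
    _ = C * (2 ^ j * C * |(t : ℝ)|) ^ n := by
        rw [mul_pow, mul_pow, pow_succ]
        ring

lemma Ij_eq (a b : ℕ → ℚ) (ha : EFc a) (hb : EFc b) (hJ : ∀ n, Jn n = (a n : ℝ) * z3 - (b n : ℝ))
    (j : ℕ) (t : ℚ) : Ij j t = z3 * val a t j - val b t j := by
  unfold Ij val
  rw [← tsum_mul_left, ← ((summ a ha j t).mul_left z3).tsum_sub (summ b hb j t)]
  apply tsum_congr
  intro n
  rw [hJ n]
  ring

/-- an intermediate field generated by algebraic elements and elements of a given set -/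
lemma algA {k Ω : Type} [Field k] [Field Ω] [Algebra k Ω] (G s : Set Ω)
    (h : ∀ g ∈ G, g ∈ s ∨ IsAlgebraic k g) :
    Algebra.IsAlgebraic (Algebra.adjoin k {x : IntermediateField.adjoin k G | (x : Ω) ∈ s})
      (IntermediateField.adjoin k G) := by
  set K := IntermediateField.adjoin k G with hK
  set s' : Set K := {x : K | (x : Ω) ∈ s} with hs'
  have hG : G ⊆ K := IntermediateField.subset_adjoin k G
  have hgen : IntermediateField.adjoin k {w : K | (w : Ω) ∈ G} = ⊤ := by
    apply IntermediateField.lift_injective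
    rw [IntermediateField.lift_adjoin, IntermediateField.lift_top]
    have h2 : (Subtype.val : K → Ω) '' {w : K | (w : Ω) ∈ G} = G := by
      ext w
      constructor
      · rintro ⟨y, hy, rfl⟩
        exact hy
      · intro hw
        exact ⟨⟨w, hG hw⟩, hw, rfl⟩
    rw [h2, hK]
  rw [← IntermediateField.isAlgebraic_adjoin_iff_top]
  set F := IntermediateField.adjoin k s' with hF
  have htop : (algebraicClosure F K).restrictScalars k = ⊤ := by
    rw [eq_top_iff, ← hgen, IntermediateField.adjoin_le_iff]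
    intro x hx
    show x ∈ (algebraicClosure F K).restrictScalars k
    rw [IntermediateField.mem_restrictScalars, mem_algebraicClosure_iff]
    rcases h _ hx with h1 | h1
    · have h2 : x ∈ F := IntermediateField.subset_adjoin k s' h1
      exact isAlgebraic_algebraMap (⟨x, h2⟩ : F)
    · have h2 : IsAlgebraic k x := by
        have h3 : (x : Ω) = algebraMap K Ω x := rfl
        rw [h3] at h1
        exact (isAlgebraic_algebraMap_iff (algebraMap K Ω).injective).mp h1
      exact h2.tower_top F
  refine ⟨fun z => ?_⟩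
  have h1 : z ∈ (algebraicClosure F K).restrictScalars k := by
    rw [htop]
    exact IntermediateField.mem_top
  rw [IntermediateField.mem_restrictScalars] at h1
  exact mem_algebraicClosure_iff.mp h1

lemma trdegA {k Ω : Type} [Field k] [Field Ω] [Algebra k Ω] (G s : Set Ω)
    (h : ∀ g ∈ G, g ∈ s ∨ IsAlgebraic k g) :
    Algebra.trdeg k (IntermediateField.adjoin k G) ≤ Cardinal.mk s := by
  haveI := algA G s h
  refine (Algebra.IsAlgebraic.trdeg_le_cardinalMk k
    {x : IntermediateField.adjoin k G | (x : Ω) ∈ s}).trans ?_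
  refine Cardinal.mk_le_of_injective (f := fun x => (⟨x.1.1, x.2⟩ : s)) ?_
  intro x y hxy
  apply Subtype.ext
  apply Subtype.ext
  exact congrArg (fun z : s => (z : Ω)) hxy

/-- FIN -/
theorem t_FIN : S_FIN := by
  classical
  intro hAP hAI
  obtain ⟨a, b, hab, ha, hb, hJ⟩ := hAP
  have hI := Ij_eq a b ha hb hJ
  have hvals := hAI a b hab ha hb
  -- the main part
  have main : ∀ S : Finset (ℕ × ℚ), (∀ p ∈ S, p.1 < 4 ∧ 0 < p.2) →
      (S.card : Cardinal) ≤ Algebra.trdeg ℚ
        (IntermediateField.adjoin ℚ ({z3} ∪ (fun p : ℕ × ℚ => Ij p.1 p.2) '' (S : Set (ℕ × ℚ)))) := by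
    intro S hS
    set G : Set ℝ := {z3} ∪ (fun p : ℕ × ℚ => Ij p.1 p.2) '' (S : Set (ℕ × ℚ)) with hG
    set K := IntermediateField.adjoin ℚ G with hK
    have hGK : G ⊆ K := IntermediateField.subset_adjoin ℚ G
    set Xs : Set ℝ := (fun p : ℕ × ℚ => val a p.2 p.1) '' (S : Set (ℕ × ℚ)) with hXs
    set K' := IntermediateField.adjoin K Xs with hK'
    have hXK : Xs ⊆ K' := IntermediateField.subset_adjoin K Xs
    have hKK : ∀ x ∈ K, x ∈ K' := fun x hx => K'.algebraMap_mem ⟨x, hx⟩
    have hx : ∀ p ∈ S, val a p.2 p.1 ∈ K' := fun p hp => hXK ⟨p, hp, rfl⟩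
    have hy : ∀ p ∈ S, val b p.2 p.1 ∈ K' := by
      intro p hp
      have h1 : val b p.2 p.1 = z3 * val a p.2 p.1 - Ij p.1 p.2 := by
        rw [hI]
        ring
      rw [h1]
      refine K'.sub_mem (K'.mul_mem (hKK _ (hGK (Or.inl rfl))) (hx p hp)) (hKK _ (hGK ?_))
      exact Or.inr ⟨p, hp, rfl⟩
    have h1 : Algebra.trdeg K K' ≤ (S.card : Cardinal) := by
      refine (trdegA Xs Xs fun g hg => Or.inl hg).trans ?_
      refine (Cardinal.mk_image_le).trans ?_
      exact (Cardinal.mk_coe_finset).le
    have h2 : ((S.card + S.card : ℕ) : Cardinal) ≤ Algebra.trdeg ℚ K' := by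
      set T : Finset ℚ := S.image Prod.snd with hT
      have hTpos : ∀ t ∈ T, 0 < t := by
        intro t ht
        obtain ⟨p, hp, rfl⟩ := Finset.mem_image.mp ht
        exact (hS p hp).2
      let v : S ⊕ S → K' := Sum.elim (fun p => ⟨val a p.1.2 p.1.1, hx p.1 p.2⟩)
        (fun p => ⟨val b p.1.2 p.1.1, hy p.1 p.2⟩)
      let e : S → T × Fin 4 := fun p =>
        (⟨p.1.2, Finset.mem_image_of_mem _ p.2⟩, ⟨p.1.1, (hS p.1 p.2).1⟩)
      have he : Function.Injective e := by
        intro p q hpq
        have h1 := congrArg (fun z => (z.1 : ℚ)) hpq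
        have h2 := congrArg (fun z => (z.2 : ℕ)) hpq
        apply Subtype.ext
        exact Prod.ext h2 h1
      have hv : AlgebraicIndependent ℚ v := by
        apply AlgebraicIndependent.of_comp (K'.val.restrictScalars ℚ)
        have h3 := (hvals T hTpos).comp (Sum.map e e) (he.sumMap he)
        convert h3 using 1
        funext z
        rcases z with z | z
        · rfl
        · rfl
      have h4 := hv.cardinalMk_le_trdeg
      rw [Cardinal.mk_sum, Cardinal.lift_id, Cardinal.mk_coe_finset] at h4
      rw [Nat.cast_add]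
      exact h4
    have f1 : FaithfulSMul K K' :=
      (faithfulSMul_iff_algebraMap_injective K K').mpr (algebraMap K K').injective
    have f2 : FaithfulSMul ℚ K :=
      (faithfulSMul_iff_algebraMap_injective ℚ K).mpr (algebraMap ℚ K).injective
    have h3 : Algebra.trdeg ℚ K + Algebra.trdeg K K' = Algebra.trdeg ℚ K' :=
      trdeg_add_eq ℚ K
    by_contra hcon
    push Not at hcon
    obtain ⟨m, hm⟩ := Cardinal.lt_aleph0.mp (hcon.trans (Cardinal.natCast_lt_aleph0))
    obtain ⟨m', hm'⟩ := Cardinal.lt_aleph0.mp (h1.trans_lt (Cardinal.natCast_lt_aleph0))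
    rw [hm] at hcon h3
    rw [hm'] at h1 h3
    rw [← h3] at h2
    have e1 : m < S.card := by exact_mod_cast hcon
    have e2 : m' ≤ S.card := by exact_mod_cast h1
    have e3 : S.card + S.card ≤ m + m' := by exact_mod_cast h2
    omega
  refine ⟨?_, main, ?_, ?_⟩
  · unfold Ij
    rw [tsum_eq_single 0]
    · rw [hJ 0, hab.a0, hab.b0]
      simp
    · intro n hn
      simp [hn]
  · -- at most one algebraic number
    have key : ∀ p : {p : ℕ × ℚ // p.1 < 4 ∧ 0 < p.2}, IsAlgebraic ℚ z3 →
        ¬ IsAlgebraic ℚ (Ij p.1.1 p.1.2) := by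
      intro p h1 h2
      have h3 := main {p.1} (by
        intro q hq
        rw [Finset.mem_singleton.mp hq]
        exact p.2)
      have h4 := h3.trans (trdegA _ (∅ : Set ℝ) (by
        rintro g (hg | ⟨q, hq, rfl⟩)
        · rw [Set.mem_singleton_iff.mp hg]
          exact Or.inr h1
        · rw [Finset.coe_singleton, Set.mem_singleton_iff] at hq
          rw [hq]
          exact Or.inr h2))
      rw [Finset.card_singleton, Cardinal.mk_eq_zero] at h4
      simp at h4
    intro x y hx hy
    rcases x with _ | x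
    · rcases y with _ | y
      · rfl
      · exact absurd hy (key y hx)
    · rcases y with _ | y
      · exact absurd hx (key x hy)
      · by_contra hne
        have hne' : x.1 ≠ y.1 := fun h => hne (congrArg some (Subtype.ext h))
        have h3 := main {x.1, y.1} (by
          intro q hq
          rcases Finset.mem_insert.mp hq with h | h
          · rw [h]
            exact x.2
          · rw [Finset.mem_singleton.mp h]
            exact y.2)
        have h4 := h3.trans (trdegA _ ({z3} : Set ℝ) (by
          rintro g (hg | ⟨q, hq, rfl⟩)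
          · exact Or.inl hg
          · right
            rcases Finset.mem_insert.mp (Finset.mem_coe.mp hq) with h | h
            · rw [h]
              exact hx
            · rw [Finset.mem_singleton.mp h]
              exact hy))
        rw [Finset.card_pair hne', Cardinal.mk_singleton] at h4
        have h5 : (2 : ℕ) ≤ 1 := by exact_mod_cast h4
        omega
  · -- the alternative
    intro hz
    refine algebraicIndependent_of_finite_type fun t ht => ?_
    haveI : Finite t := ht.to_subtype
    haveI : Fintype t := ht.fintype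
    set S : Finset (ℕ × ℚ) := ht.toFinset.image Subtype.val with hS
    have hSc : S.card = ht.toFinset.card := Finset.card_image_of_injective _ Subtype.val_injective
    have h3 := main S (by
      intro q hq
      obtain ⟨p, -, rfl⟩ := Finset.mem_image.mp hq
      exact p.2)
    set G : Set ℝ := {z3} ∪ (fun p : ℕ × ℚ => Ij p.1 p.2) '' (S : Set (ℕ × ℚ)) with hG
    set K := IntermediateField.adjoin ℚ G with hK
    have hGK : G ⊆ K := IntermediateField.subset_adjoin ℚ G
    have hm : ∀ p : t, Ij p.1.1.1 p.1.1.2 ∈ K := by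
      intro p
      apply hGK
      refine Or.inr ⟨p.1.1, ?_, rfl⟩
      rw [Finset.mem_coe, hS]
      exact Finset.mem_image_of_mem _ (ht.mem_toFinset.mpr p.2)
    let v : t → K := fun p => ⟨Ij p.1.1.1 p.1.1.2, hm p⟩
    have hr : Set.range v = {x : K | (x : ℝ) ∈ (fun p : ℕ × ℚ => Ij p.1 p.2) '' (S : Set (ℕ × ℚ))} := by
      ext x
      constructor
      · rintro ⟨p, rfl⟩
        refine ⟨p.1.1, ?_, rfl⟩
        rw [Finset.mem_coe, hS]
        exact Finset.mem_image_of_mem _ (ht.mem_toFinset.mpr p.2)
      · rintro ⟨q, hq, hqx⟩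
        obtain ⟨p, hp, rfl⟩ := Finset.mem_image.mp (Finset.mem_coe.mp hq)
        exact ⟨⟨p, ht.mem_toFinset.mp hp⟩, Subtype.ext hqx⟩
    haveI : Algebra.IsAlgebraic (Algebra.adjoin ℚ (Set.range v)) K := by
      rw [hr]
      apply algA
      rintro g (hg | hg)
      · rw [Set.mem_singleton_iff.mp hg]
        exact Or.inr hz
      · exact Or.inl hg
    have hcard : Cardinal.mk t ≤ Algebra.trdeg ℚ K := by
      have h5 : Cardinal.mk t = (S.card : Cardinal) := by
        rw [hSc, ← Cardinal.mk_coe_finset]
        exact Cardinal.mk_congr (Equiv.subtypeEquivRight fun x => ht.mem_toFinset.symm)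
      rw [h5]
      exact h3
    have hb := Algebra.IsAlgebraic.isTranscendenceBasis_of_le_trdeg_of_finite ℚ v hcard
    exact hb.1.map' (f := K.val) K.val.injective

end Pool.Agent.E8helper71.AZ
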