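import Pool.Agent.E8helper42.AZ.Stm4
import Pool.Agent.E8helper71.AZ.Fin

/-!
# Project AZ: the final algebra, with an additional number
-/

set_option autoImplicit false

namespace Pool.Agent.E8helper71.AZ

open Pool.Agent.E8helper42.AZ

/-- a field generated by elements which are algebraic over the field generated by `s` -/
lemma trdegB {k Ω : Type} [Field k] [Field Ω] [Algebra k Ω] (G s : Set Ω)
    (h : ∀ g ∈ G, IsAlgebraic (IntermediateField.adjoin k s) g) :
    Algebra.trdeg k (IntermediateField.adjoin k G) ≤ Cardinal.mk s := by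
  set F := IntermediateField.adjoin k s with hF
  set L := (algebraicClosure F Ω).restrictScalars k with hL
  have h1 : IntermediateField.adjoin k G ≤ L := by
    rw [IntermediateField.adjoin_le_iff]
    intro g hg
    show g ∈ L
    rw [hL, IntermediateField.mem_restrictScalars, mem_algebraicClosure_iff]
    exact h g hg
  have h2 : Algebra.trdeg k (IntermediateField.adjoin k G) ≤ Algebra.trdeg k L :=
    trdeg_le_of_injective (IntermediateField.inclusion h1)
      (IntermediateField.inclusion h1).injective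
  have h3 : Algebra.trdeg k L = Algebra.trdeg k (algebraicClosure F Ω) := rfl
  have f1 : FaithfulSMul F (algebraicClosure F Ω) :=
    (faithfulSMul_iff_algebraMap_injective _ _).mpr (algebraMap F (algebraicClosure F Ω)).injective
  have f2 : FaithfulSMul k F :=
    (faithfulSMul_iff_algebraMap_injective k F).mpr (algebraMap k F).injective
  have h4 : Algebra.trdeg k F + Algebra.trdeg F (algebraicClosure F Ω) =
      Algebra.trdeg k (algebraicClosure F Ω) := trdeg_add_eq k F
  have h5 : Algebra.trdeg F (algebraicClosure F Ω) = 0 := trdeg_eq_zero_iff.2 inferInstance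
  have h6 : Algebra.trdeg k F ≤ Cardinal.mk s := trdegA s s (fun g hg => Or.inl hg)
  rw [h5, add_zero] at h4
  rw [h3, ← h4] at h2
  exact h2.trans h6

section

variable {σ : Type} {w z : ℝ} {x y : σ → ℝ}

/-- the first part -/
theorem fge1 (hxy : AlgebraicIndependent ℚ (fun o : Option (σ ⊕ σ) => o.elim w (Sum.elim x y)))
    (G : Set ℝ) (hz : IsAlgebraic (IntermediateField.adjoin ℚ ({w} ∪ G)) z) (S : Finset σ) :
    ((S.card + 1 : ℕ) : Cardinal) ≤ Algebra.trdeg ℚ
      (IntermediateField.adjoin ℚ ({w} ∪ G ∪ (fun s => z * x s - y s) '' (S : Set σ))) := by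
  classical
  set G' : Set ℝ := {w} ∪ G ∪ (fun s => z * x s - y s) '' (S : Set σ) with hG'
  set K := IntermediateField.adjoin ℚ G' with hK
  have hGK : G' ⊆ K := IntermediateField.subset_adjoin ℚ G'
  have hzK : IsAlgebraic K z := by
    have hle : IntermediateField.adjoin ℚ ({w} ∪ G) ≤ K :=
      IntermediateField.adjoin.mono ℚ ({w} ∪ G) G' Set.subset_union_left
    letI : Algebra (IntermediateField.adjoin ℚ ({w} ∪ G)) K :=
      (IntermediateField.inclusion hle).toAlgebra
    haveI : IsScalarTower (IntermediateField.adjoin ℚ ({w} ∪ G)) K ℝ :=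
      IsScalarTower.of_algebraMap_eq fun _ => rfl
    exact hz.tower_top K
  set Xs : Set ℝ := x '' (S : Set σ) with hXs
  set K' := IntermediateField.adjoin K (Xs ∪ {z}) with hK'
  have hXK : Xs ∪ {z} ⊆ K' := IntermediateField.subset_adjoin K _
  have hKK : ∀ u ∈ K, u ∈ K' := fun u hu => K'.algebraMap_mem ⟨u, hu⟩
  have hx : ∀ s ∈ S, x s ∈ K' := fun s hs => hXK (Or.inl ⟨s, hs, rfl⟩)
  have hz' : z ∈ K' := hXK (Or.inr rfl)
  have hw : w ∈ K' := hKK _ (hGK (Or.inl (Or.inl rfl)))
  have hy : ∀ s ∈ S, y s ∈ K' := by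
    intro s hs
    have h1 : y s = z * x s - (z * x s - y s) := by ring
    rw [h1]
    refine K'.sub_mem (K'.mul_mem hz' (hx s hs)) (hKK _ (hGK ?_))
    exact Or.inr ⟨s, hs, rfl⟩
  have h1 : Algebra.trdeg K K' ≤ (S.card : Cardinal) := by
    refine (trdegA (Xs ∪ {z}) Xs (by
      rintro g (hg | hg)
      · exact Or.inl hg
      · rw [Set.mem_singleton_iff.mp hg]
        exact Or.inr hzK)).trans ?_
    refine (Cardinal.mk_image_le).trans ?_
    exact (Cardinal.mk_coe_finset).le
  have h2 : ((S.card + S.card + 1 : ℕ) : Cardinal) ≤ Algebra.trdeg ℚ K' := by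
    let v : Option (S ⊕ S) → K' := fun o => o.elim ⟨w, hw⟩
      (Sum.elim (fun p => ⟨x p.1, hx p.1 p.2⟩) (fun p => ⟨y p.1, hy p.1 p.2⟩))
    have hv : AlgebraicIndependent ℚ v := by
      apply AlgebraicIndependent.of_comp (K'.val.restrictScalars ℚ)
      have h3 := hxy.comp (Option.map (Sum.map (Subtype.val : S → σ) (Subtype.val : S → σ)))
        (Option.map_injective (Subtype.val_injective.sumMap Subtype.val_injective))
      convert h3 using 1
      funext u
      rcases u with _ | u | u
      · rfl
      · rfl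
      · rfl
    have h4 := hv.cardinalMk_le_trdeg
    rw [Cardinal.mk_option, Cardinal.mk_sum, Cardinal.lift_id, Cardinal.mk_coe_finset] at h4
    rw [Nat.cast_add, Nat.cast_add, Nat.cast_one]
    exact h4
  have f1 : FaithfulSMul K K' :=
    (faithfulSMul_iff_algebraMap_injective K K').mpr (algebraMap K K').injective
  have f2 : FaithfulSMul ℚ K :=
    (faithfulSMul_iff_algebraMap_injective ℚ K).mpr (algebraMap ℚ K).injective
  have h3 : Algebra.trdeg ℚ K + Algebra.trdeg K K' = Algebra.trdeg ℚ K' :=
    trdeg_add_eq ℚ K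
  by_contra hcon
  push Not at hcon
  obtain ⟨m, hm⟩ := Cardinal.lt_aleph0.mp (hcon.trans (Cardinal.natCast_lt_aleph0))
  obtain ⟨m', hm'⟩ := Cardinal.lt_aleph0.mp (h1.trans_lt (Cardinal.natCast_lt_aleph0))
  rw [hm] at hcon h3
  rw [hm'] at h1 h3
  rw [← h3] at h2
  have e1 : m < S.card + 1 := by exact_mod_cast hcon
  have e2 : m' ≤ S.card := by exact_mod_cast h1
  have e3 : S.card + S.card + 1 ≤ m + m' := by exact_mod_cast h2
  omega

/-- the last part -/
theorem fge4 (hxy : AlgebraicIndependent ℚ (fun o : Option (σ ⊕ σ) => o.elim w (Sum.elim x y)))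
    (r : ℕ) (v : Fin r → ℝ)
    (hz : IsAlgebraic (IntermediateField.adjoin ℚ ({w} ∪ Set.range v)) z) :
    {i : Fin r ⊕ σ | IsAlgebraic (IntermediateField.adjoin ℚ {w})
      (i.elim v fun s => z * x s - y s)}.encard ≤ (r : ℕ∞) := by
  classical
  by_contra hcon
  push Not at hcon
  have h0 : ((r + 1 : ℕ) : ℕ∞) ≤ {i : Fin r ⊕ σ | IsAlgebraic (IntermediateField.adjoin ℚ {w})
      (i.elim v fun s => z * x s - y s)}.encard := by
    rw [Nat.cast_add, Nat.cast_one]
    exact Order.add_one_le_of_lt hcon
  obtain ⟨T, hT, hTc⟩ := Set.exists_subset_encard_eq h0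
  have hTf : T.Finite := Set.finite_of_encard_eq_coe hTc
  obtain ⟨F, rfl⟩ : ∃ F : Finset (Fin r ⊕ σ), T = (F : Set (Fin r ⊕ σ)) :=
    ⟨hTf.toFinset, by simp⟩
  rw [Set.encard_coe_eq_coe_finsetCard] at hTc
  have hFc : F.card = r + 1 := by exact_mod_cast hTc
  set A : Finset (Fin r) := F.toLeft with hA
  set S : Finset σ := F.toRight with hS
  have hAS : A.card + S.card = r + 1 := by
    rw [← hFc]
    exact Finset.card_toLeft_add_card_toRight
  have hAal : ∀ i ∈ A, IsAlgebraic (IntermediateField.adjoin ℚ {w}) (v i) :=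
    fun i hi => hT (Finset.mem_toLeft.mp hi)
  have hSal : ∀ s ∈ S, IsAlgebraic (IntermediateField.adjoin ℚ {w}) (z * x s - y s) :=
    fun s hs => hT (Finset.mem_toRight.mp hs)
  have h1 := fge1 hxy (Set.range v) hz S
  set B : Set ℝ := {w} ∪ v '' ((Finset.univ \ A : Finset (Fin r)) : Set (Fin r)) with hB
  have hup : ∀ u : ℝ, IsAlgebraic (IntermediateField.adjoin ℚ {w}) u →
      IsAlgebraic (IntermediateField.adjoin ℚ B) u := by
    intro u hu
    have hle : IntermediateField.adjoin ℚ {w} ≤ IntermediateField.adjoin ℚ B :=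
      IntermediateField.adjoin.mono ℚ {w} B Set.subset_union_left
    letI : Algebra (IntermediateField.adjoin ℚ {w}) (IntermediateField.adjoin ℚ B) :=
      (IntermediateField.inclusion hle).toAlgebra
    haveI : IsScalarTower (IntermediateField.adjoin ℚ {w}) (IntermediateField.adjoin ℚ B) ℝ :=
      IsScalarTower.of_algebraMap_eq fun _ => rfl
    exact hu.tower_top _
  have hin : ∀ u ∈ B, IsAlgebraic (IntermediateField.adjoin ℚ B) u := by
    intro u hu
    exact isAlgebraic_algebraMap
      (⟨u, IntermediateField.subset_adjoin ℚ B hu⟩ : IntermediateField.adjoin ℚ B)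
  have h2 := h1.trans (trdegB _ B (by
    rintro g ((hg | ⟨i, rfl⟩) | ⟨s, hs, rfl⟩)
    · exact hin _ (Or.inl hg)
    · by_cases hi : i ∈ A
      · exact hup _ (hAal i hi)
      · apply hin
        right
        refine ⟨i, ?_, rfl⟩
        rw [Finset.mem_coe, Finset.mem_sdiff]
        exact ⟨Finset.mem_univ _, hi⟩
    · exact hup _ (hSal s hs)))
  have h3 : Cardinal.mk B ≤ ((1 + (Finset.univ \ A : Finset (Fin r)).card : ℕ) : Cardinal) := by
    refine (Cardinal.mk_union_le _ _).trans ?_
    rw [Nat.cast_add, Nat.cast_one, Cardinal.mk_singleton]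
    exact add_le_add le_rfl (Cardinal.mk_image_le.trans (Cardinal.mk_coe_finset).le)
  have h4 : S.card + 1 ≤ 1 + (Finset.univ \ A : Finset (Fin r)).card := by
    exact_mod_cast h2.trans h3
  rw [Finset.card_sdiff_of_subset (Finset.subset_univ A), Finset.card_univ, Fintype.card_fin] at h4
  have h5 : A.card ≤ r := by
    have := Finset.card_le_univ A
    rwa [Fintype.card_fin] at this
  omega

/-- FGE -/
theorem t_FGE : S_FGE := by
  classical
  intro σ w z x y hxy
  refine ⟨fun G hz S => fge1 hxy G hz S, ?_, ?_, fun r v hz => fge4 hxy r v hz⟩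
  · -- at most one
    have h1 := fge4 hxy 1 (fun _ => z) (by
      have h2 : z ∈ IntermediateField.adjoin ℚ ({w} ∪ Set.range fun _ : Fin 1 => z) :=
        IntermediateField.subset_adjoin ℚ _ (Or.inr ⟨0, rfl⟩)
      exact isAlgebraic_algebraMap
        (⟨z, h2⟩ : IntermediateField.adjoin ℚ ({w} ∪ Set.range fun _ : Fin 1 => z)))
    rw [Nat.cast_one, Set.encard_le_one_iff] at h1
    intro o o' ho ho'
    let f : Option σ → Fin 1 ⊕ σ := fun o => o.elim (Sum.inl 0) Sum.inr
    have hf : ∀ o : Option σ, IsAlgebraic (IntermediateField.adjoin ℚ {w})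
        (o.elim z fun s => z * x s - y s) →
        f o ∈ {i : Fin 1 ⊕ σ | IsAlgebraic (IntermediateField.adjoin ℚ {w})
          (i.elim (fun _ => z) fun s => z * x s - y s)} := by
      intro o ho
      rcases o with _ | o
      · exact ho
      · exact ho
    have h3 := h1 _ _ (hf o ho) (hf o' ho')
    rcases o with _ | o <;> rcases o' with _ | o'
    · rfl
    · exact absurd h3 (by simp [f])
    · exact absurd h3 (by simp [f])
    · have h4 : (Sum.inr o : Fin 1 ⊕ σ) = Sum.inr o' := h3
      rw [Sum.inr.inj h4]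
  · -- the alternative
    intro hz
    refine algebraicIndependent_of_finite_type fun t ht => ?_
    haveI : Finite t := ht.to_subtype
    haveI : Fintype t := ht.fintype
    set S : Finset σ := ht.toFinset.eraseNone with hS
    have hmem : ∀ o ∈ t, ∀ s, o = some s → s ∈ S := by
      intro o ho s hs
      rw [hS, Finset.mem_eraseNone, ht.mem_toFinset, ← hs]
      exact ho
    have h3 := fge1 hxy (∅ : Set ℝ) (by rw [Set.union_empty]; exact hz) S
    set G : Set ℝ := {w} ∪ ∅ ∪ (fun s => z * x s - y s) '' (S : Set σ) with hG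
    set K := IntermediateField.adjoin ℚ G with hK
    have hGK : G ⊆ K := IntermediateField.subset_adjoin ℚ G
    have hw : w ∈ K := hGK (Or.inl (Or.inl rfl))
    have hm : ∀ p : S, z * x p.1 - y p.1 ∈ K := fun p => hGK (Or.inr ⟨p.1, p.2, rfl⟩)
    let v : Option S → K := fun o => o.elim ⟨w, hw⟩ fun p => ⟨z * x p.1 - y p.1, hm p⟩
    have hr : Set.range v = {u : K | (u : ℝ) ∈ G} := by
      ext u
      constructor
      · rintro ⟨o, rfl⟩
        rcases o with _ | p
        · exact Or.inl (Or.inl rfl)
        · exact Or.inr ⟨p.1, p.2, rfl⟩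
      · rintro ((hu | hu) | ⟨q, hq, hqx⟩)
        · exact ⟨none, Subtype.ext (Set.mem_singleton_iff.mp hu).symm⟩
        · exact absurd hu (Set.notMem_empty _)
        · exact ⟨some ⟨q, hq⟩, Subtype.ext hqx⟩
    haveI : Algebra.IsAlgebraic (Algebra.adjoin ℚ (Set.range v)) K := by
      rw [hr]
      apply algA
      intro g hg
      exact Or.inl hg
    have hcard : Cardinal.mk (Option S) ≤ Algebra.trdeg ℚ K := by
      rw [Cardinal.mk_option, Cardinal.mk_coe_finset]
      rw [Nat.cast_add, Nat.cast_one] at h3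
      exact h3
    have hb := Algebra.IsAlgebraic.isTranscendenceBasis_of_le_trdeg_of_finite ℚ v hcard
    have hb2 : AlgebraicIndependent ℚ (fun o : Option S => (v o : ℝ)) :=
      hb.1.map' (f := K.val) K.val.injective
    let e : t → Option S := fun o => match h : o.1 with
      | none => none
      | some s => some ⟨s, hmem o.1 o.2 s h⟩
    have he : ∀ o : t, (e o).map Subtype.val = o.1 := by
      rintro ⟨o, ho⟩
      rcases o with _ | s
      · rfl
      · rfl
    have hinj : Function.Injective e := by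
      intro o o' h
      apply Subtype.ext
      rw [← he o, ← he o', h]
    have h5 := hb2.comp e hinj
    convert h5 using 1
    funext o
    obtain ⟨o, ho⟩ := o
    rcases o with _ | s
    · rfl
    · rfl

end

end Pool.Agent.E8helper71.AZ
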