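import Pool.Agent.E8helper42.AZ.Stm

/-!
# Project AZ: a prime ideal stable under all matrices of trace zero and all translations
-/

set_option autoImplicit false

namespace Pool.Agent.E8helper71.AZ

open MvPolynomial Pool.Agent.E8helper42.AZ

lemma deg_pderiv {σ F : Type} [Field F] (i : σ) (P : MvPolynomial σ F) (h : pderiv i P ≠ 0) :
    (pderiv i P).totalDegree < P.totalDegree := by
  classical
  have hne : (pderiv i P).support.Nonempty := by
    rwa [Finset.nonempty_iff_ne_empty, Ne, support_eq_empty]
  rw [totalDegree, Finset.sup_lt_iff]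
  · intro m hm
    rw [mem_support_iff, coeff_pderiv] at hm
    have h1 : coeff (m + Finsupp.single i 1) P ≠ 0 := fun h => hm (by rw [h, zero_mul])
    have h2 := le_totalDegree (mem_support_iff.mpr h1)
    have h3 : (m + Finsupp.single i 1).sum (fun _ e => e) = m.sum (fun _ e => e) + 1 := by
      rw [Finsupp.sum_add_index' (fun _ => rfl) (fun _ _ _ => rfl), Finsupp.sum_single_index rfl]
    omega
  · obtain ⟨m, hm⟩ := hne
    rw [mem_support_iff, coeff_pderiv] at hm
    have h1 : coeff (m + Finsupp.single i 1) P ≠ 0 := fun h => hm (by rw [h, zero_mul])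
    have h2 := le_totalDegree (mem_support_iff.mpr h1)
    have h3 : (m + Finsupp.single i 1).sum (fun _ e => e) = m.sum (fun _ e => e) + 1 := by
      rw [Finsupp.sum_add_index' (fun _ => rfl) (fun _ _ _ => rfl), Finsupp.sum_single_index rfl]
    rw [bot_eq_zero]
    omega

lemma const_of_pderiv {σ F : Type} [Field F] [CharZero F] (P : MvPolynomial σ F)
    (h : ∀ i, pderiv i P = 0) : P = C (coeff 0 P) := by
  classical
  ext m
  rw [coeff_C]
  split_ifs with hm
  · rw [hm]
  · obtain ⟨i, hi⟩ : ∃ i, m i ≠ 0 := by
      by_contra hcon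
      push Not at hcon
      exact hm (Finsupp.ext fun i => (hcon i).symm)
    have h1 := congrArg (coeff (m - Finsupp.single i 1)) (h i)
    rw [coeff_pderiv, coeff_zero] at h1
    have h2 : m - Finsupp.single i 1 + Finsupp.single i 1 = m := by
      apply tsub_add_cancel_of_le
      rw [Finsupp.single_le_iff]
      omega
    rw [h2] at h1
    rcases mul_eq_zero.mp h1 with h3 | h3
    · exact h3
    · exfalso
      have h4 : ((((m - Finsupp.single i 1 : σ →₀ ℕ) i : ℕ) + 1 : ℕ) : F) = 0 := by
        push_cast
        exact h3
      rw [Nat.cast_eq_zero] at h4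
      omega

/-- ID -/
theorem t_ID : S_ID := by
  intro ι _ _ n F _ _ p hp hX hD
  classical
  by_contra hne
  obtain ⟨P, ⟨hPp, hP0⟩, hmin⟩ : ∃ P, (P ∈ p ∧ P ≠ 0) ∧
      ∀ Q, Q ∈ p → Q ≠ 0 → P.totalDegree ≤ Q.totalDegree := by
    obtain ⟨Q, hQ, hQ0⟩ := Submodule.exists_mem_ne_zero_of_ne_bot hne
    have hwf := exists_minimalFor_of_wellFoundedLT
      (fun P : MvPolynomial (Vr ι n) F => P ∈ p ∧ P ≠ 0) (fun P => P.totalDegree) ⟨Q, hQ, hQ0⟩
    obtain ⟨P, hP⟩ := hwf
    refine ⟨P, hP.1, fun Q h1 h2 => ?_⟩
    by_contra hlt
    push Not at hlt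
    exact absurd (hP.2 ⟨h1, h2⟩ hlt.le) (not_le.mpr hlt)
  have hz : ∀ v : Vr ι n, pderiv v P ∈ p → pderiv v P = 0 := by
    intro v hv
    by_contra h0
    exact absurd (hmin _ hv h0) (not_le.mpr (deg_pderiv v P h0))
  -- the variables `Y`
  have hY : ∀ q : ι × Fin n, pderiv (Sum.inr q) P = 0 := by
    rintro ⟨i, a⟩
    apply hz
    have h1 := hD (fun j => (0, if j = i then Pi.single a 1 else 0)) (fun j => by simp) P hPp
    have h2 : Del (ι := ι) (n := n) (S := F)
        (fun j => (0, if j = i then Pi.single a 1 else 0)) = pderiv (Sum.inr (i, a)) := by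
      apply derivation_ext
      rintro (⟨j, b⟩ | ⟨j, b⟩)
      · unfold Del
        rw [mkDerivation_X, pderiv_X]
        simp
      · unfold Del
        rw [mkDerivation_X, pderiv_X]
        simp only [Sum.elim_inr, Matrix.zero_apply, C_0, zero_mul, Finset.sum_const_zero, zero_add]
        by_cases hj : j = i
        · subst hj
          by_cases hb : b = a
          · subst hb
            simp
          · have : (Sum.inr (j, b) : Vr ι n) ≠ Sum.inr (j, a) := by
              intro h
              exact hb (congrArg Prod.snd (Sum.inr_injective h))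
            simp [hb, this]
        · have : (Sum.inr (j, b) : Vr ι n) ≠ Sum.inr (i, a) := by
            intro h
            exact hj (congrArg Prod.fst (Sum.inr_injective h))
          simp [hj, this]
    rwa [h2] at h1
  have hXd : ∀ q : ι × Fin n, pderiv (Sum.inl q) P = 0 := by
    rintro ⟨i, a⟩
    apply hz
    obtain ⟨b, hba, hb⟩ : ∃ b : Fin n, b ≠ a ∧ X (Sum.inl (i, b)) ∉ p := by
      obtain ⟨c, c', hcc, h1, h2⟩ := hX i
      by_cases h : c = a
      · exact ⟨c', fun h' => hcc (h.trans h'.symm), h2⟩
      · exact ⟨c, h, h1⟩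
    have h1 := hD (fun j => (if j = i then Matrix.single a b 1 else 0, 0)) (fun j => by
      by_cases hj : j = i
      · simp only [hj, if_true]
        exact Matrix.trace_single_eq_of_ne a b 1 hba.symm
      · simp [hj]) P hPp
    have h2 : Del (ι := ι) (n := n) (S := F)
        (fun j => (if j = i then Matrix.single a b 1 else 0, 0)) =
        (X (Sum.inl (i, b)) : MvPolynomial (Vr ι n) F) • pderiv (Sum.inl (i, a)) +
          (X (Sum.inr (i, b)) : MvPolynomial (Vr ι n) F) • pderiv (Sum.inr (i, a)) := by
      apply derivation_ext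
      have key : ∀ (j : ι) (e : Fin n) (f : ι × Fin n → MvPolynomial (Vr ι n) F),
          ∑ c, C ((if j = i then Matrix.single a b (1 : F) else 0) e c) * f (j, c) =
            if j = i ∧ e = a then f (i, b) else 0 := by
        intro j e f
        by_cases hj : j = i
        · subst hj
          by_cases he : e = a
          · subst he
            rw [if_pos (⟨rfl, rfl⟩ : j = j ∧ e = e), Finset.sum_eq_single b]
            · simp
            · intro c _ hc
              simp [Matrix.single, hc.symm]
            · intro h
              exact absurd (Finset.mem_univ b) h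
          · rw [if_neg (fun h : j = j ∧ e = a => he h.2)]
            apply Finset.sum_eq_zero
            intro c _
            simp [Matrix.single, Ne.symm he]
        · rw [if_neg (fun h : j = i ∧ e = a => hj h.1)]
          simp [hj]
      rintro (⟨j, e⟩ | ⟨j, e⟩)
      · unfold Del
        rw [mkDerivation_X]
        simp only [Sum.elim_inl]
        rw [key j e (fun q => X (Sum.inl q))]
        rw [Derivation.add_apply, Derivation.smul_apply, Derivation.smul_apply, pderiv_X, pderiv_X]
        by_cases h : j = i ∧ e = a
        · obtain ⟨rfl, rfl⟩ := h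
          simp
        · have : (Sum.inl (j, e) : Vr ι n) ≠ Sum.inl (i, a) := by
            intro h'
            have := Sum.inl_injective h'
            exact h ⟨congrArg Prod.fst this, congrArg Prod.snd this⟩
          rw [if_neg h]
          simp [this]
      · unfold Del
        rw [mkDerivation_X]
        simp only [Sum.elim_inr]
        rw [key j e (fun q => X (Sum.inr q))]
        rw [Derivation.add_apply, Derivation.smul_apply, Derivation.smul_apply, pderiv_X, pderiv_X]
        by_cases h : j = i ∧ e = a
        · obtain ⟨rfl, rfl⟩ := h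
          simp
        · have : (Sum.inr (j, e) : Vr ι n) ≠ Sum.inr (i, a) := by
            intro h'
            have := Sum.inr_injective h'
            exact h ⟨congrArg Prod.fst this, congrArg Prod.snd this⟩
          rw [if_neg h]
          simp [this]
    rw [h2, Derivation.add_apply, Derivation.smul_apply, Derivation.smul_apply, hY (i, a),
      smul_zero, add_zero, smul_eq_mul] at h1
    exact (hp.mem_or_mem h1).resolve_left hb
  have hc := const_of_pderiv P (by
    rintro (q | q)
    · exact hXd q
    · exact hY q)
  have hc0 : coeff 0 P ≠ 0 := by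
    intro h
    rw [h, C_0] at hc
    exact hP0 hc
  apply hp.ne_top
  rw [Ideal.eq_top_iff_one]
  have h1 : C (coeff 0 P)⁻¹ * P = 1 := by
    conv_lhs => rw [hc]
    rw [coeff_C, if_pos rfl, ← C_mul, inv_mul_cancel₀ hc0, C_1]
  rw [← h1]
  exact p.mul_mem_left _ hPp

end Pool.Agent.E8helper71.AZ
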