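import Mathlib
import Pool.Agent.E8helper42.AZ.Stm2

/-!
# Project AZ: S_IRR2, irreducibility of a Lie algebra from the irreducibility of the connection
-/

set_option autoImplicit false

namespace Pool.Agent.E8helper71.AZ

open Pool.Agent.E8helper42.AZ Module Matrix

lemma nil_pow {R : Type} [CommRing R] [IsDomain R] {r : ℕ} (M : Matrix (Fin r) (Fin r) R) (h : IsNilpotent M) :
    M ^ r = 0 := by
  have h1 := Matrix.isNilpotent_charpoly_sub_pow_of_isNilpotent h
  have h2 : M.charpoly = Polynomial.X ^ r := by
    have := h1.eq_zero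
    rw [sub_eq_zero] at this
    simpa using this
  have h3 := Matrix.aeval_self_charpoly M
  rw [h2] at h3
  simpa using h3

lemma ker_dim {K V : Type} [Field K] [AddCommGroup V] [Module K V] [FiniteDimensional K V] (T : V →ₗ[K] V) (n : ℕ)
    (hn : finrank K V = n) (h0 : T ^ n = 0) (h1 : T ^ (n - 1) ≠ 0) :
    ∀ i ≤ n, finrank K (LinearMap.ker (T ^ (n - i))) ≤ n - i := by
  intro i
  induction i with
  | zero =>
    intro _
    have := Submodule.finrank_le (LinearMap.ker (T ^ (n - 0)))
    omega
  | succ i ih =>
    intro hi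
    have h2 := ih (by omega)
    have h3 : LinearMap.ker (T ^ (n - (i + 1))) < LinearMap.ker (T ^ (n - i)) := by
      have e : n - i = (n - (i + 1)) + 1 := by omega
      refine lt_of_le_of_ne ?_ ?_
      · intro v hv
        rw [LinearMap.mem_ker] at hv ⊢
        rw [e, pow_succ', Module.End.mul_apply, hv, map_zero]
      · intro h4
        rw [e] at h4
        have h5 := Module.End.ker_pow_constant h4
        have h6 := h5 i
        have h7 := h5 (i + 1)
        rw [h6] at h7
        have e1 : n - (i + 1) + i = n - 1 := by omega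
        have e2 : n - (i + 1) + (i + 1) = n := by omega
        rw [e1, e2, h0, LinearMap.ker_zero] at h7
        exact h1 (LinearMap.ker_eq_top.mp h7)
    have h4 := Submodule.finrank_lt_finrank_of_lt h3
    omega

/-- a submodule of `F^n` whose image is killed by a power of a regular nilpotent matrix has bounded dimension -/
lemma dim_le {F R : Type} [Field F] [CommRing R] [IsDomain R] [Algebra F R] {n : ℕ} (N : Matrix (Fin n) (Fin n) R)
    (h0 : N ^ n = 0) (h1 : N ^ (n - 1) ≠ 0) (r : ℕ) (hr : r ≤ n) (V : Submodule F (Fin n → F))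
    (hV : ∀ v ∈ V, (N ^ r).mulVec (algebraMap F R ∘ v) = 0) : finrank F V ≤ r := by
  classical
  set K := FractionRing R
  set κ : F →+* K := (algebraMap R K).comp (algebraMap F R) with hκ
  set T : (Fin n → K) →ₗ[K] (Fin n → K) := Matrix.toLin' (N.map (algebraMap R K)) with hT
  have hpow : ∀ k : ℕ, T ^ k = Matrix.toLin' ((N ^ k).map (algebraMap R K)) := by
    intro k
    rw [hT, ← Matrix.toLin'_pow, Matrix.map_pow]
  have hinj : Function.Injective (algebraMap R K) := IsFractionRing.injective R K
  have hT0 : T ^ n = 0 := by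
    rw [hpow, h0, Matrix.map_zero _ (map_zero _), map_zero]
  have hT1 : T ^ (n - 1) ≠ 0 := by
    rw [hpow]
    intro h
    apply h1
    rw [LinearEquiv.map_eq_zero_iff] at h
    apply Matrix.map_injective hinj
    show (N ^ (n - 1)).map (algebraMap R K) = (0 : Matrix (Fin n) (Fin n) R).map (algebraMap R K)
    rw [h, Matrix.map_zero _ (map_zero _)]
  have hker := ker_dim T n (by simp) hT0 hT1 (n - r) (by omega)
  have e : n - (n - r) = r := by omega
  rw [e] at hker
  refine le_trans ?_ hker
  -- basis of `V` and a left inverse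
  obtain ⟨g, hg⟩ := LinearMap.exists_leftInverse_of_injective V.subtype (LinearMap.ker_eq_bot.mpr V.injective_subtype)
  set s := finrank F V
  let b := Module.finBasis F V
  let B₀ : (Fin s → F) →ₗ[F] (Fin n → F) := V.subtype ∘ₗ b.equivFun.symm.toLinearMap
  let C₀ : (Fin n → F) →ₗ[F] (Fin s → F) := b.equivFun.toLinearMap ∘ₗ g
  have hCB : C₀ ∘ₗ B₀ = LinearMap.id := by
    apply LinearMap.ext
    intro x
    have := LinearMap.congr_fun hg (b.equivFun.symm x)
    simp only [LinearMap.comp_apply, LinearMap.id_apply] at this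
    simp only [C₀, B₀, LinearMap.comp_apply, LinearEquiv.coe_coe, LinearMap.id_apply]
    rw [this, LinearEquiv.apply_symm_apply]
  set B : Matrix (Fin n) (Fin s) F := LinearMap.toMatrix' B₀
  set C : Matrix (Fin s) (Fin n) F := LinearMap.toMatrix' C₀
  have hCBm : C * B = 1 := by
    rw [← LinearMap.toMatrix'_comp, hCB, LinearMap.toMatrix'_id]
  have hB : ∀ j, (fun i => B i j) ∈ V := by
    intro j
    have : (fun i => B i j) = B₀ (Pi.single j 1) := by
      funext i
      simp [B, LinearMap.toMatrix'_apply]
    rw [this]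
    exact (b.equivFun.symm (Pi.single j 1)).2
  have hNB : (N ^ r) * B.map (algebraMap F R) = 0 := by
    apply Matrix.ext
    intro i j
    exact congrFun (hV _ (hB j)) i
  have hNB' : (N ^ r).map (algebraMap R K) * B.map κ = 0 := by
    have := congrArg (fun M => Matrix.map M (algebraMap R K)) hNB
    simp only [Matrix.map_mul] at this
    rw [Matrix.map_zero _ (map_zero _), Matrix.map_map] at this
    exact this
  have hCB' : C.map κ * B.map κ = 1 := by
    rw [← Matrix.map_mul, hCBm, Matrix.map_one _ (map_zero _) (map_one _)]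
  let f : (Fin s → K) →ₗ[K] (LinearMap.ker (T ^ r)) :=
    LinearMap.codRestrict _ (Matrix.toLin' (B.map κ)) (by
      intro x
      rw [LinearMap.mem_ker, hpow, ← LinearMap.comp_apply, ← Matrix.toLin'_mul, hNB', map_zero,
        LinearMap.zero_apply])
  have hf : Function.Injective f := by
    intro x y hxy
    have h2 : (B.map κ).mulVec x = (B.map κ).mulVec y := by
      have := congrArg Subtype.val hxy
      simpa [f, Matrix.toLin'_apply] using this
    have h3 : (C.map κ).mulVec ((B.map κ).mulVec x) = (C.map κ).mulVec ((B.map κ).mulVec y) := by rw [h2]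
    rw [Matrix.mulVec_mulVec, Matrix.mulVec_mulVec, hCB', Matrix.one_mulVec, Matrix.one_mulVec] at h3
    exact h3
  have := LinearMap.finrank_le_finrank_of_injective hf
  simpa using this

lemma stab_pow {F R : Type} [Field F] [CommRing R] [IsDomain R] [Algebra F R] {n : ℕ} (N : Matrix (Fin n) (Fin n) R)
    (h : Submodule F (Matrix (Fin n) (Fin n) F))
    (hN : N ∈ Submodule.span R ((fun M : Matrix (Fin n) (Fin n) F => M.map (algebraMap F R)) '' (h : Set _)))
    (h0 : N ^ n = 0) (U : Submodule F (Fin n → F)) (hU : ∀ M ∈ h, ∀ u ∈ U, M.mulVec u ∈ U) :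
    ∀ u ∈ U, (N ^ (finrank F U)).mulVec (algebraMap F R ∘ u) = 0 := by
  classical
  obtain ⟨g, hg⟩ := LinearMap.exists_leftInverse_of_injective U.subtype (LinearMap.ker_eq_bot.mpr U.injective_subtype)
  set s := finrank F U with hs
  let b := Module.finBasis F U
  let B₀ : (Fin s → F) →ₗ[F] (Fin n → F) := U.subtype ∘ₗ b.equivFun.symm.toLinearMap
  let C₀ : (Fin n → F) →ₗ[F] (Fin s → F) := b.equivFun.toLinearMap ∘ₗ g
  have hCB : C₀ ∘ₗ B₀ = LinearMap.id := by
    apply LinearMap.ext
    intro x
    have := LinearMap.congr_fun hg (b.equivFun.symm x)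
    simp only [LinearMap.comp_apply, LinearMap.id_apply] at this
    simp only [C₀, B₀, LinearMap.comp_apply, LinearEquiv.coe_coe, LinearMap.id_apply]
    rw [this, LinearEquiv.apply_symm_apply]
  have hBC : ∀ u ∈ U, B₀ (C₀ u) = u := by
    intro u hu
    have := LinearMap.congr_fun hg ⟨u, hu⟩
    simp only [LinearMap.comp_apply, LinearMap.id_apply, Submodule.subtype_apply] at this
    simp only [C₀, B₀, LinearMap.comp_apply, LinearEquiv.coe_coe]
    rw [this]
    simp
  set B : Matrix (Fin n) (Fin s) F := LinearMap.toMatrix' B₀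
  set C : Matrix (Fin s) (Fin n) F := LinearMap.toMatrix' C₀
  have hCBm : C * B = 1 := by
    rw [← LinearMap.toMatrix'_comp, hCB, LinearMap.toMatrix'_id]
  have hBCm : ∀ u ∈ U, B.mulVec (C.mulVec u) = u := by
    intro u hu
    have := hBC u hu
    rwa [← LinearMap.toMatrix'_mulVec, ← LinearMap.toMatrix'_mulVec] at this
  have hB : ∀ j, (fun i => B i j) ∈ U := by
    intro j
    have : (fun i => B i j) = B₀ (Pi.single j 1) := by
      funext i
      simp [B, LinearMap.toMatrix'_apply]
    rw [this]
    exact (b.equivFun.symm (Pi.single j 1)).2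
  set ρ := algebraMap F R
  -- `M B = B (C M B)` for `M` in `h`, hence for `N`
  have key : ∀ M ∈ Submodule.span R ((fun M : Matrix (Fin n) (Fin n) F => M.map ρ) '' (h : Set _)),
      M * B.map ρ = B.map ρ * (C.map ρ * (M * B.map ρ)) := by
    intro M hM
    induction hM using Submodule.span_induction with
    | mem x hx =>
      obtain ⟨M, hM, rfl⟩ := hx
      have : M * B = B * (C * (M * B)) := by
        apply Matrix.ext
        intro i j
        have h2 := hBCm _ (hU M hM _ (hB j))
        have h3 := congrFun h2 i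
        exact h3.symm
      have h4 := congrArg (fun M => Matrix.map M ρ) this
      simpa only [Matrix.map_mul] using h4
    | zero => simp
    | add x y _ _ hx hy =>
      rw [Matrix.add_mul, Matrix.mul_add, Matrix.mul_add, ← hx, ← hy]
    | smul a x _ hx =>
      rw [Matrix.smul_mul, Matrix.mul_smul, Matrix.mul_smul, ← hx]
  have hNB := key N hN
  set N₁ : Matrix (Fin s) (Fin s) R := C.map ρ * (N * B.map ρ) with hN₁
  have hpow : ∀ k, N ^ k * B.map ρ = B.map ρ * N₁ ^ k := by
    intro k
    induction k with
    | zero => simp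
    | succ k ih => rw [pow_succ, Matrix.mul_assoc, hNB, ← Matrix.mul_assoc, ih, Matrix.mul_assoc, ← pow_succ]
  have hCB' : C.map ρ * B.map ρ = 1 := by
    rw [← Matrix.map_mul, hCBm, Matrix.map_one _ (map_zero _) (map_one _)]
  have hnil : N₁ ^ n = 0 := by
    have := hpow n
    rw [h0, Matrix.zero_mul] at this
    have h2 := congrArg (fun M => C.map ρ * M) this
    simp only [Matrix.mul_zero] at h2
    rw [← Matrix.mul_assoc, hCB', Matrix.one_mul] at h2
    exact h2.symm
  have hz : N ^ s * B.map ρ = 0 := by
    rw [hpow, nil_pow N₁ ⟨n, hnil⟩, Matrix.mul_zero]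
  intro u hu
  have h2 := hBCm u hu
  have h3 : ρ ∘ u = (B.map ρ).mulVec (ρ ∘ (C.mulVec u)) := by
    conv_lhs => rw [← h2]
    funext i
    simp [Function.comp, Matrix.mulVec, dotProduct, map_sum, map_mul]
  rw [h3, Matrix.mulVec_mulVec, hz, Matrix.zero_mulVec]

theorem t_IRR2 : S_IRR2 := by
  classical
  intro n F R _ _ _ _ θF θ hθ A h N hN h0 h1 hhor hirr U hU
  apply hirr
  set r := finrank F U with hr
  have hrn : r ≤ n := by
    have := Submodule.finrank_le U
    simpa using this
  -- the space of vectors killed by `N ^ r`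
  let V : Submodule F (Fin n → F) :=
    { carrier := {v | (N ^ r).mulVec (algebraMap F R ∘ v) = 0}
      zero_mem' := by
        have : algebraMap F R ∘ (0 : Fin n → F) = 0 := by funext i; simp
        simp [this]
      add_mem' := by
        intro a b ha hb
        have : algebraMap F R ∘ (a + b) = algebraMap F R ∘ a + algebraMap F R ∘ b := by funext i; simp
        simp only [Set.mem_ofPred_eq] at ha hb ⊢
        rw [this, Matrix.mulVec_add, ha, hb, add_zero]
      smul_mem' := by
        intro c a ha
        have : algebraMap F R ∘ (c • a) = algebraMap F R c • (algebraMap F R ∘ a) := by funext i; simp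
        simp only [Set.mem_ofPred_eq] at ha ⊢
        rw [this, Matrix.mulVec_smul, ha, smul_zero] }
  have hUV : U ≤ V := stab_pow N h hN h0 U hU
  have hdim : finrank F V ≤ r := dim_le N h0 h1 r hrn V (fun v hv => hv)
  have hEq : U = V := Submodule.eq_of_le_of_finrank_le hUV hdim
  intro w hw
  rw [hEq]
  show (N ^ r).mulVec (algebraMap F R ∘ (θF ∘ w - A.mulVec w)) = 0
  -- horizontality
  have hder : ∀ (M : Matrix (Fin n) (Fin n) R) (x : Fin n → R), θ ∘ (M.mulVec x) = (M.map θ).mulVec x + M.mulVec (θ ∘ x) := by
    intro M x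
    funext i
    simp only [Function.comp, Matrix.mulVec, dotProduct, Pi.add_apply, map_sum, Matrix.map_apply, Derivation.leibniz,
      smul_eq_mul]
    rw [← Finset.sum_add_distrib]
    apply Finset.sum_congr rfl
    intro j _
    ring
  have hcomm : ∀ x : Fin n → R, N.mulVec (θ ∘ x - (A.map (algebraMap F R)).mulVec x) =
      θ ∘ (N.mulVec x) - (A.map (algebraMap F R)).mulVec (N.mulVec x) := by
    intro x
    have e1 : N.map θ = A.map (algebraMap F R) * N - N * A.map (algebraMap F R) := by
      have := hhor
      rw [sub_eq_zero] at this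
      rw [← this]
      abel
    rw [hder, e1, Matrix.sub_mulVec, Matrix.mulVec_sub, Matrix.mulVec_mulVec, Matrix.mulVec_mulVec]
    abel
  have hpow : ∀ k, ∀ x : Fin n → R, (N ^ k).mulVec (θ ∘ x - (A.map (algebraMap F R)).mulVec x) =
      θ ∘ ((N ^ k).mulVec x) - (A.map (algebraMap F R)).mulVec ((N ^ k).mulVec x) := by
    intro k
    induction k with
    | zero => intro x; simp
    | succ k ih =>
      intro x
      rw [pow_succ, ← Matrix.mulVec_mulVec, hcomm, ih, Matrix.mulVec_mulVec]
  have e2 : algebraMap F R ∘ (θF ∘ w - A.mulVec w) =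
      θ ∘ (algebraMap F R ∘ w) - (A.map (algebraMap F R)).mulVec (algebraMap F R ∘ w) := by
    funext i
    simp only [Function.comp, Pi.sub_apply, map_sub, hθ]
    congr 1
    simp [Matrix.mulVec, dotProduct, map_sum]
  rw [e2, hpow]
  have h3 : (N ^ r).mulVec (algebraMap F R ∘ w) = 0 := hUV hw
  rw [h3]
  funext i
  simp

end Pool.Agent.E8helper71.AZ
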