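import Pool.Agent.E8helper42.AZ.Stm4
import Pool.Agent.E8helper71.AZ.Id

/-!
# Project AZ: the relation for the exponential function alone
-/

set_option autoImplicit false

namespace Pool.Agent.E8helper71.AZ

open MvPolynomial Pool.Agent.E8helper42.AZ

/-- translations -/
lemma del_Y {κ F : Type} [Fintype κ] [DecidableEq κ] {n : ℕ} [Field F] (i : κ) (a : Fin n) :
    Del (ι := κ) (n := n) (S := F) (fun j => (0, if j = i then Pi.single a 1 else 0)) =
      pderiv (Sum.inr (i, a)) := by
  classical
  apply derivation_ext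
  rintro (⟨j, b⟩ | ⟨j, b⟩)
  · unfold Del
    rw [mkDerivation_X, pderiv_X]
    simp
  · unfold Del
    rw [mkDerivation_X, pderiv_X]
    simp only [Sum.elim_inr, Matrix.zero_apply, C_0, zero_mul, Finset.sum_const_zero, zero_add]
    by_cases hj : j = i
    · subst hj
      by_cases hb : b = a
      · subst hb
        simp
      · have : (Sum.inr (j, b) : Vr κ n) ≠ Sum.inr (j, a) := by
          intro h
          exact hb (congrArg Prod.snd (Sum.inr_injective h))
        simp [hb, this]
    · have : (Sum.inr (j, b) : Vr κ n) ≠ Sum.inr (i, a) := by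
        intro h
        exact hj (congrArg Prod.fst (Sum.inr_injective h))
      simp [hj, this]

/-- elementary matrices -/
lemma del_X {κ F : Type} [Fintype κ] [DecidableEq κ] {n : ℕ} [Field F] (i : κ) (a b : Fin n) :
    Del (ι := κ) (n := n) (S := F) (fun j => (if j = i then Matrix.single a b 1 else 0, 0)) =
      (X (Sum.inl (i, b)) : MvPolynomial (Vr κ n) F) • pderiv (Sum.inl (i, a)) +
        (X (Sum.inr (i, b)) : MvPolynomial (Vr κ n) F) • pderiv (Sum.inr (i, a)) := by
  classical
  apply derivation_ext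
  have key : ∀ (j : κ) (e : Fin n) (f : κ × Fin n → MvPolynomial (Vr κ n) F),
      ∑ c, C ((if j = i then Matrix.single a b (1 : F) else 0) e c) * f (j, c) =
        if j = i ∧ e = a then f (i, b) else 0 := by
    intro j e f
    by_cases hj : j = i
    · subst hj
      by_cases he : e = a
      · subst he
        rw [if_pos (⟨rfl, rfl⟩ : j = j ∧ e = e), Finset.sum_eq_single b]
        · simp
        · intro c _ hc
          simp [Matrix.single, hc.symm]
        · intro h
          exact absurd (Finset.mem_univ b) h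
      · rw [if_neg (fun h : j = j ∧ e = a => he h.2)]
        apply Finset.sum_eq_zero
        intro c _
        simp [Matrix.single, Ne.symm he]
    · rw [if_neg (fun h : j = i ∧ e = a => hj h.1)]
      simp [hj]
  rintro (⟨j, e⟩ | ⟨j, e⟩)
  · unfold Del
    rw [mkDerivation_X]
    simp only [Sum.elim_inl]
    rw [key j e (fun q => X (Sum.inl q))]
    rw [Derivation.add_apply, Derivation.smul_apply, Derivation.smul_apply, pderiv_X, pderiv_X]
    by_cases h : j = i ∧ e = a
    · obtain ⟨rfl, rfl⟩ := h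
      simp
    · have : (Sum.inl (j, e) : Vr κ n) ≠ Sum.inl (i, a) := by
        intro h'
        have := Sum.inl_injective h'
        exact h ⟨congrArg Prod.fst this, congrArg Prod.snd this⟩
      rw [if_neg h]
      simp [this]
  · unfold Del
    rw [mkDerivation_X]
    simp only [Sum.elim_inr]
    rw [key j e (fun q => X (Sum.inr q))]
    rw [Derivation.add_apply, Derivation.smul_apply, Derivation.smul_apply, pderiv_X, pderiv_X]
    by_cases h : j = i ∧ e = a
    · obtain ⟨rfl, rfl⟩ := h
      simp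
    · have : (Sum.inr (j, e) : Vr κ n) ≠ Sum.inr (i, a) := by
        intro h'
        have := Sum.inr_injective h'
        exact h ⟨congrArg Prod.fst this, congrArg Prod.snd this⟩
      rw [if_neg h]
      simp [this]

lemma vars_pderiv {σ F : Type} [Field F] (i v : σ) (P : MvPolynomial σ F)
    (h : v ∈ (pderiv i P).vars) : v ∈ P.vars := by
  classical
  rw [mem_vars] at h ⊢
  obtain ⟨m, hm, hv⟩ := h
  rw [mem_support_iff, coeff_pderiv] at hm
  have h1 : coeff (m + Finsupp.single i 1) P ≠ 0 := fun h => hm (by rw [h, zero_mul])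
  refine ⟨_, mem_support_iff.mpr h1, ?_⟩
  rw [Finsupp.mem_support_iff] at hv ⊢
  rw [Finsupp.add_apply]
  omega

lemma pderiv_ne {σ F : Type} [Field F] [CharZero F] (v : σ) (P : MvPolynomial σ F)
    (h : v ∈ P.vars) : pderiv v P ≠ 0 := by
  classical
  rw [mem_vars] at h
  obtain ⟨m, hm, hv⟩ := h
  rw [Finsupp.mem_support_iff] at hv
  intro h0
  have h1 := congrArg (coeff (m - Finsupp.single v 1)) h0
  rw [coeff_pderiv, coeff_zero] at h1
  have h2 : m - Finsupp.single v 1 + Finsupp.single v 1 = m := by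
    apply tsub_add_cancel_of_le
    rw [Finsupp.single_le_iff]
    omega
  rw [h2] at h1
  rcases mul_eq_zero.mp h1 with h3 | h3
  · exact (mem_support_iff.mp hm) h3
  · have h4 : ((((m - Finsupp.single v 1 : σ →₀ ℕ) v : ℕ) + 1 : ℕ) : F) = 0 := by
      push_cast
      exact h3
    rw [Nat.cast_eq_zero] at h4
    omega

/-- IDE -/
theorem t_IDE : S_IDE := by
  intro ι _ _ n F _ _ c₀ p hp hX hD P₀ hP₀ hP₀0 hP₀v
  classical
  set A : Set (Vr (Option ι) n) := {v | v = Sum.inl (none, c₀) ∨ (∃ i c, v = Sum.inl (some i, c)) ∨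
    ∃ i c, v = Sum.inr (some i, c)} with hA
  obtain ⟨P, ⟨hPp, hP0, hPv⟩, hmin⟩ : ∃ P, (P ∈ p ∧ P ≠ 0 ∧ ∀ v ∈ P.vars, v ∈ A) ∧
      ∀ Q, Q ∈ p → Q ≠ 0 → (∀ v ∈ Q.vars, v ∈ A) → P.totalDegree ≤ Q.totalDegree := by
    have hwf := exists_minimalFor_of_wellFoundedLT
      (fun P : MvPolynomial (Vr (Option ι) n) F => P ∈ p ∧ P ≠ 0 ∧ ∀ v ∈ P.vars, v ∈ A)
      (fun P => P.totalDegree) ⟨P₀, hP₀, hP₀0, hP₀v⟩
    obtain ⟨P, hP⟩ := hwf
    refine ⟨P, hP.1, fun Q h1 h2 h3 => ?_⟩
    by_contra hlt
    push Not at hlt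
    exact absurd (hP.2 ⟨h1, h2, h3⟩ hlt.le) (not_le.mpr hlt)
  have hz : ∀ v : Vr (Option ι) n, pderiv v P ∈ p → pderiv v P = 0 := by
    intro v hv
    by_contra h0
    exact absurd (hmin _ hv h0 fun w hw => hPv w (vars_pderiv v w P hw))
      (not_le.mpr (deg_pderiv v P h0))
  have hY : ∀ (i : ι) (a : Fin n), pderiv (Sum.inr (some i, a)) P = 0 := by
    intro i a
    apply hz
    have h1 := hD (fun j => (0, if j = some i then Pi.single a 1 else 0)) (fun j => by simp)
      (by simp) P hPp
    rwa [del_Y] at h1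
  have hXd : ∀ (i : ι) (a : Fin n), pderiv (Sum.inl (some i, a)) P = 0 := by
    intro i a
    apply hz
    obtain ⟨b, hba, hb⟩ : ∃ b : Fin n, b ≠ a ∧ X (Sum.inl (some i, b)) ∉ p := by
      obtain ⟨c, c', hcc, h1, h2⟩ := hX i
      by_cases h : c = a
      · exact ⟨c', fun h' => hcc (h.trans h'.symm), h2⟩
      · exact ⟨c, h, h1⟩
    have h1 := hD (fun j => (if j = some i then Matrix.single a b 1 else 0, 0)) (fun j => by
      by_cases hj : j = some i
      · simp only [hj, if_true]
        exact Matrix.trace_single_eq_of_ne a b 1 hba.symm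
      · simp [hj]) (by simp) P hPp
    rw [del_X, Derivation.add_apply, Derivation.smul_apply, Derivation.smul_apply, hY i a,
      smul_zero, add_zero, smul_eq_mul] at h1
    exact (hp.mem_or_mem h1).resolve_left hb
  have hv : ∀ v ∈ P.vars, v = Sum.inl (none, c₀) := by
    intro v hv
    rcases hPv v hv with h | ⟨i, c, h⟩ | ⟨i, c, h⟩
    · exact h
    · exact absurd (hXd i c) (h ▸ pderiv_ne v P hv)
    · exact absurd (hY i c) (h ▸ pderiv_ne v P hv)
  have h1 : P ∈ Algebra.adjoin F {(X (Sum.inl (none, c₀)) : MvPolynomial (Vr (Option ι) n) F)} := by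
    have h2 : P ∈ supported F ({Sum.inl (none, c₀)} : Set (Vr (Option ι) n)) := by
      rw [mem_supported]
      intro v hv'
      exact hv v (Finset.mem_coe.mp hv')
    rw [supported_eq_adjoin_X, Set.image_singleton] at h2
    exact h2
  rw [Algebra.adjoin_singleton_eq_range_aeval] at h1
  obtain ⟨q, hq⟩ := h1
  refine ⟨q, ?_, ?_⟩
  · rintro rfl
    apply hP0
    rw [← hq]
    simp
  · have h3 : Polynomial.aeval (X (Sum.inl (none, c₀)) : MvPolynomial (Vr (Option ι) n) F) q = P := hq
    rw [h3]
    exact hPp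

end Pool.Agent.E8helper71.AZ
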